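import Pool.Agent.Work.MP_70e905_nt.Q4.Four
import Pool.Agent.Work.MP_1a023c_nt.Powers

set_option autoImplicit false

namespace Pool.Agent.Work.MP_1a023c_nt.Cand.QuarterOfPowers

open Finset Classical

/-- For every `ε > 0` there is `J₀` such that for every positive rational `r ≠ 1` and every
`J ≥ J₀` at least `(1/4 - ε) J` of the exponents `j ≤ J` are such that `r ^ j` is of the form
`(p + 1) / (q + 1)` for infinitely many pairs of primes `(p, q)`. -/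
theorem result (ε : ℝ) (hε : 0 < ε) : ∃ J₀ : ℕ, ∀ r : ℚ, 0 < r → r ≠ 1 → ∀ J : ℕ, J₀ ≤ J →
    (1 / 4 - ε) * J ≤
      (#{j ∈ Icc 1 J | {s : ℕ × ℕ | s.1.Prime ∧ s.2.Prime ∧
        r ^ j = ((s.1 : ℚ) + 1) / (s.2 + 1)}.Infinite} : ℝ) := by
  obtain ⟨J₀, h⟩ := PoolSR.powers 4 (by norm_num) PoolQ4.clusterPlus_four ε hε
  refine ⟨J₀, fun r hr hr1 J hJ => ?_⟩
  have h1 := h r hr hr1 J hJ
  rwa [show ((4 : ℕ) : ℝ) = 4 by norm_num] at h1

end Pool.Agent.Work.MP_1a023c_nt.Cand.QuarterOfPowers
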