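import Pool.Agent.Work.MP_70e905_nt.Q4.Four
import Pool.Agent.Work.MP_1a023c_nt.Dens

set_option autoImplicit false

namespace Pool.Agent.Work.MP_1a023c_nt.Cand.QuarterOfRationals

open Finset Classical

/-- At least a quarter of the positive rational numbers `a / b` are of the form `(p + 1) / (q + 1)`
for infinitely many pairs of primes `(p, q)`: the rational numbers `a / b` (in lowest terms) are
counted with the logarithmic weight `1 / max(a, b) ^ 2` of their height. -/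
theorem result (ε : ℝ) (hε : 0 < ε) : ∃ X₀ : ℕ, ∀ X : ℕ, X₀ ≤ X →
    (1 / 4 - ε) * ∑ u ∈ (Icc 1 X ×ˢ Icc 1 X).filter (fun u => u.1.Coprime u.2),
        1 / ((max u.1 u.2 : ℕ) : ℝ) ^ 2 ≤
      ∑ u ∈ (Icc 1 X ×ˢ Icc 1 X).filter (fun u => u.1.Coprime u.2 ∧
          {s : ℕ × ℕ | s.1.Prime ∧ s.2.Prime ∧
            (u.1 : ℚ) / u.2 = ((s.1 : ℚ) + 1) / (s.2 + 1)}.Infinite),
        1 / ((max u.1 u.2 : ℕ) : ℝ) ^ 2 := by
  obtain ⟨X₀, h⟩ := PoolSR.dens 4 (by norm_num) PoolQ4.clusterPlus_four ε hε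
  refine ⟨X₀, fun X hX => ?_⟩
  have h1 := h X hX
  rw [show ((4 : ℕ) : ℝ) = 4 by norm_num] at h1
  refine h1.trans (le_of_eq ?_)
  refine sum_congr (filter_congr fun u hu => ?_) (fun _ _ => rfl)
  have hu2 : 0 < u.2 := (mem_Icc.1 (mem_product.1 hu).2).1
  refine and_congr_right fun _ => ?_
  have e : {s : ℕ × ℕ | s.1.Prime ∧ s.2.Prime ∧ (s.1 + 1) * u.2 = (s.2 + 1) * u.1} =
      {s : ℕ × ℕ | s.1.Prime ∧ s.2.Prime ∧ (u.1 : ℚ) / u.2 = ((s.1 : ℚ) + 1) / (s.2 + 1)} := by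
    ext s
    simp only [Set.mem_ofPred_eq]
    refine and_congr_right fun _ => and_congr_right fun _ => ?_
    have h2 : (0 : ℚ) < u.2 := by exact_mod_cast hu2
    have h3 : (0 : ℚ) < (s.2 : ℚ) + 1 := by positivity
    rw [div_eq_div_iff h2.ne' h3.ne']
    constructor
    · intro h4
      have h5 : ((s.1 : ℚ) + 1) * u.2 = (s.2 + 1) * u.1 := by exact_mod_cast h4
      linarith
    · intro h4
      have h5 : ((s.1 : ℚ) + 1) * u.2 = (s.2 + 1) * u.1 := by linarith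
      exact_mod_cast h5
  rw [e]

end Pool.Agent.Work.MP_1a023c_nt.Cand.QuarterOfRationals
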